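import Mathlib
import Pool.Agent.H.MP_7e9539_an.Link

set_option autoImplicit false

namespace Pool.Agent.Results.MP_035205_an.No

open Set Filter Topology CStarModule WithCStarModule Pool.Agent.H.MP_7e9539_an
open scoped InnerProductSpace unitInterval

/-- a contractive idempotent of `D` onto `C` -/
def CE {R : Type} [NormedAddCommGroup R] [NormedSpace ℂ R] (C D : Set R) : Prop :=
  ∃ Φ : R → R, (∀ a ∈ D, ∀ b ∈ D, ∀ z : ℂ, Φ (a + z • b) = Φ a + z • Φ b) ∧
    (∀ a ∈ D, Φ a ∈ C ∧ ‖Φ a‖ ≤ ‖a‖) ∧ ∀ a ∈ C, Φ a = a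

/-- contractive idempotent onto a closed ternary subspace -/
def Proj (A : Type) {E : Type} [NormedAddCommGroup E] [NormedSpace ℂ E] [Inner A E] [SMul A E]
    (P : E →L[ℂ] E) : Prop :=
  (∀ x, P (P x) = P x) ∧ ‖P‖ ≤ 1 ∧ IsClosed (range P) ∧
    ∀ x y z, inner A (P y) (P z) • P x ∈ range P

/-- the statement -/
def St : Prop := ∃ (A E : Type) (_ : NonUnitalCStarAlgebra A) (_ : PartialOrder A)
    (_ : StarOrderedRing A) (_ : SMul A E) (_ : NormedAddCommGroup E) (_ : NormedSpace ℂ E)
    (_ : CStarModule A E) (P : E →L[ℂ] E), (∀ a b : A, a * b = b * a) ∧ CompleteSpace E ∧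
    Dense (Submodule.span ℂ (range fun p : E × E => inner A p.1 p.2) : Set A) ∧ Proj A P ∧
    ¬ CE (Link A (range P)) (Link A (univ : Set E))

variable {B : Type} [CommCStarAlgebra B] [PartialOrder B] [StarOrderedRing B] (J : Submodule B B)

/-- synonym -/
def U : Type := {x // x ∈ J}

noncomputable instance : NormedAddCommGroup (U J) := Submodule.normedAddCommGroup J
noncomputable instance : NormedSpace ℂ (U J) := Submodule.normedSpace J
instance : MulAction B (U J) := inferInstanceAs (MulAction B J)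

noncomputable instance : CStarModule B (U J) where
  inner x y := ⟪x.1, y.1⟫_B
  inner_add_right := CStarModule.inner_add_right
  inner_self_nonneg := CStarModule.inner_self_nonneg
  inner_self := CStarModule.inner_self.trans Submodule.coe_eq_zero
  inner_op_smul_right := CStarModule.inner_op_smul_right
  inner_smul_right_complex := CStarModule.inner_smul_right_complex
  star_inner x y := CStarModule.star_inner x.1 y.1
  norm_eq_sqrt_norm_inner_self x := CStarModule.norm_eq_sqrt_norm_inner_self x.1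

abbrev V := WithCStarModule B (U J × B)

/-- the projection -/
noncomputable def P : Op (V J) := LinearMap.mkContinuous
  { toFun v := (equiv B _).symm (v.1, 0)
    map_add' v w := Prod.ext rfl (by simp)
    map_smul' c v := Prod.ext rfl (by simp) } 1 fun v =>
  (prod_norm_le_norm_add _).trans (by
    simpa using (le_max_left _ _).trans (max_le_prod_norm v))

theorem gn (hJ : IsClosed (J : Set B)) (H : ∀ u ∈ J, ∃ g ∈ J,
    ‖1 + (-2 : ℂ) • (g * star g)‖ ≤ 1 ∧ 1 < ‖u + (-2 : ℂ) • (g * star g)‖) : St := by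
  have : CompleteSpace (U J) := hJ.completeSpace_coe
  have r : ∀ v : V J, v ∈ range (P J) ↔ v.2 = 0 := fun v =>
    ⟨by rintro ⟨w, rfl⟩; rfl, fun h => ⟨v, Prod.ext rfl h.symm⟩⟩
  have os : ∀ v : V J, (1 : B) • v = v := fun v => Prod.ext (one_smul B v.1) (one_smul B v.2)
  let e : V J := (equiv B _).symm (0, 1)
  refine ⟨B, V J, inferInstance, inferInstance, inferInstance, inferInstance, inferInstance,
    inferInstance, inferInstance, P J, mul_comm, inferInstance, fun b => subset_closure (Submodule.subset_span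
      ⟨(e, b • e), by simp [e, prod_inner, inner_def]⟩), ⟨fun _ => rfl, by
      unfold P; exact LinearMap.mkContinuous_norm_le _ zero_le_one _, ?_,
      fun x y z => (r _).2 (smul_zero _)⟩, ?_⟩
  · rw [show range (P J) = {v | P J v = v} from
      ext fun v => ⟨by rintro ⟨w, rfl⟩; rfl, fun h => ⟨v, h⟩⟩]
    exact isClosed_eq (P J).continuous continuous_id
  rw [link_eq, link_eq]
  rintro ⟨Φ, h1, h2, h3⟩
  let o : Pool.Agent.H.MP_7e9539_an.Sum B (V J) := (equiv B _).symm (1, 0)
  have no : ‖o‖ ≤ 1 := (prod_norm_le_norm_add _).trans (by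
    simpa [o] using (IsStarProjection.one B).norm_le)
  have nv : ∀ k : Op (Pool.Agent.H.MP_7e9539_an.Sum B (V J)), ‖(k o).1‖ ≤ ‖k‖ :=
    fun k => (n1 _).trans ((k.le_opNorm_of_le no).trans_eq (mul_one _))
  let ev : Op (Pool.Agent.H.MP_7e9539_an.Sum B (V J)) →L[ℂ] B := LinearMap.mkContinuous
    { toFun k := (k o).1
      map_add' _ _ := rfl
      map_smul' _ _ := rfl } 1 fun k => (nv k).trans_eq (one_mul _).symm
  have z : ∀ k ∈ (dat B (V J)).L (range (P J)), ev k ∈ J := by
    refine Submodule.topologicalClosure_minimal _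
      (t := (J.restrictScalars ℂ).comap ev.toLinearMap) (Submodule.span_le.2 ?_)
      (hJ.preimage ev.continuous)
    rintro k ⟨x, hx, y, hy, rfl | rfl | rfl | rfl⟩
    · exact J.zero_mem
    · show ⟪x, 0⟫_B ∈ J
      simp
    · show ⟪x, (1 : B) • y⟫_B ∈ J
      rw [os, prod_inner, (r y).1 hy, CStarModule.inner_zero_right, add_zero,
        show ⟪x.1, y.1⟫_B = y.1.1 * star x.1.1 from rfl, mul_comm]
      exact J.smul_mem _ y.1.2
    · exact J.zero_mem
  have pe' : S B e * T B e ∈ (dat B (V J)).L univ :=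
    gH ⟨e, trivial, e, trivial, .inr (.inr (.inl rfl))⟩
  obtain ⟨g, g1, n, g2⟩ := H _ (z _ (h2 _ pe').1)
  let x : V J := (equiv B _).symm (⟨g, g1⟩, 0)
  have i : ⟪x, x⟫_B = g * star g := by simp [x, prod_inner]; rfl
  have q : ∀ F, x ∈ F → S B x * T B x ∈ (dat B (V J)).L F :=
    fun F h => gH ⟨x, h, x, h, .inr (.inr (.inl rfl))⟩
  have a := (h2 _ (add_mem pe' (Submodule.smul_mem _ (-2 : ℂ) (q _ trivial)))).2
  rw [h1 _ pe' _ (q _ trivial), h3 _ (q _ ((r x).2 rfl))] at a
  have b : ‖S B e * T B e + (-2 : ℂ) • (S B x * T B x)‖ ≤ 1 :=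
    ContinuousLinearMap.opNorm_le_bound _ zero_le_one fun v =>
      (prod_norm_le_norm_add _).trans (by
        have : ((S B e * T B e + (-2 : ℂ) • (S B x * T B x)) v).1 =
            v.1 * (1 + (-2 : ℂ) • (g * star g)) := by
          simp [i, e, prod_inner, inner_def, mul_add]
        rw [this]
        simpa [mul_comm] using (norm_mul_le _ _).trans (mul_le_mul (n1 v) n (norm_nonneg _)
          (norm_nonneg _)))
  have c := (nv _).trans (a.trans b)
  have d : ev (S B x * T B x) = g * star g := by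
    show ⟪x, (1 : B) • x⟫_B = _
    rw [os, i]
  rw [← d, ← map_smul, ← map_add] at g2
  exact g2.not_ge c

theorem result : ∃ (A E : Type) (_ : NonUnitalCStarAlgebra A) (_ : PartialOrder A)
    (_ : StarOrderedRing A) (_ : SMul A E) (_ : NormedAddCommGroup E) (_ : NormedSpace ℂ E)
    (_ : CStarModule A E) (P : E →L[ℂ] E), (∀ a b : A, a * b = b * a) ∧ CompleteSpace E ∧
    Dense (Submodule.span ℂ (range fun p : E × E => inner A p.1 p.2) : Set A) ∧ Proj A P ∧
    ¬ CE (Link A (range P)) (Link A (univ : Set E)) := by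
  let _ := CStarAlgebra.spectralOrder C(I, ℂ)
  have := CStarAlgebra.spectralOrderedRing C(I, ℂ)
  refine gn (B := C(I, ℂ))
    { carrier := {f | f 0 = 0}
      add_mem' ha hb := by simp_all
      zero_mem' := rfl
      smul_mem' c x hx := by simp_all }
    (isClosed_eq (continuous_eval_const (0 : I)) continuous_const) fun u hu => ?_
  have hu : u 0 = 0 := hu
  obtain ⟨t, ht, t0⟩ := mem_closure_iff.1
    (show 0 ∈ closure (Ioi (0 : I)) by rw [closure_Ioi' ⟨1, zero_lt_one⟩]; simp) _
    (isOpen_lt (f := fun t => ‖u t‖) (by fun_prop) (continuous_const (y := (1 : ℝ)))) (by simp [hu])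
  have t0 : (0 : ℝ) < t := t0
  let g : C(I, ℂ) := ⟨fun s => (min 1 (s / t : ℝ) : ℝ), by fun_prop⟩
  refine ⟨g, show g 0 = 0 by simp [g], (ContinuousMap.norm_le _ zero_le_one).2 fun s => ?_,
    lt_of_lt_of_le ?_ (ContinuousMap.norm_coe_le_norm _ t)⟩
  · have s0 : 0 ≤ min 1 (s / t : ℝ) := le_min zero_le_one (div_nonneg s.2.1 t0.le)
    have s1 := min_le_left 1 (s / t : ℝ)
    have : (1 + (-2 : ℂ) • (g * star g)) s = (1 - 2 * min 1 (s / t : ℝ) ^ 2 : ℝ) := by
      simp [g]; ring
    rw [this, Complex.norm_real, Real.norm_eq_abs, abs_le]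
    constructor <;> nlinarith
  · have := norm_sub_norm_le 2 (u t)
    have ht : ‖u t‖ < 1 := ht
    rw [norm_sub_rev] at this
    simp [g, t0.ne', ← sub_eq_add_neg] at this ⊢
    linarith

end Pool.Agent.Results.MP_035205_an.No
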